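import Pool.Agent.helper59.FI4.SpecI

/-!
# Project fi4 (MP_baa4d7_al), block IND, row RTN: the standing situation in the type `N`
-/

set_option autoImplicit false

namespace Pool.Agent.FI4I

open Pool.Agent.helper58.DC Pool.Agent.DI Pool.Agent.GR Pool.Agent.OB Pool.Agent.DR Pool.Agent.FI Pool.Agent.FI3 Pool.Agent.FI4

theorem RTN (hDFH : DFH_stmt) (hTR1 : TR1_stmt) (hTR2 : TR2_stmt) (hTR3 : TR3_stmt) (hTPR : FI.TPR_stmt) (hCLS : CLS_stmt) : RTN_stmt := by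
  intro p M hS G _ _ D x θ χ rt N hN φ hφ hSB
  have hDcz : D ≤ cz D := by
    intro d hd
    rw [Subgroup.mem_centralizer_iff]
    exact fun c hc => rt.com c hc d hd
  have hDN : D ≤ N := hDcz.trans hN
  obtain ⟨x', hx', hD⟩ := hDFH p M hS G D x θ χ rt N hN φ hφ hSB
  have hx'N : x' ∈ N := hN hx'
  have hself : N.subgroupOf N = ⊤ := Subgroup.subgroupOf_self N
  obtain ⟨a1, -, -⟩ := hTR1 G N N le_rfl
  obtain ⟨a1', -, -⟩ := hTR1 G N (cz D) hN
  obtain ⟨b1, b2, b3, b4⟩ := hTR2 G M N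
  obtain ⟨c1, c2, c3, c4, c5⟩ := hTR3 p G N
  obtain ⟨d1, d2, -, -, d5⟩ := hTPR p M hS N
  have hθN : ∀ y, y ∉ N → θ y = 0 := fun y hy => rt.th.1 y fun h => hy (hN h)
  have hom : ∀ y : N, omega (rN N φ) y = cc φ (cls N (y : G)) := by
    intro y
    rw [(hCLS N (⊤ : Subgroup N) y).2.2.2.2.2.2.2.1 (rN N φ), ← hself, ← b3 N le_rfl y]
    exact b1 φ _ hφ.1
  have hcen : ∀ y : N, pp p (Subgroup.centralizer ({y} : Set N)) = pp p (Cz N (y : G)) := by
    intro y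
    rw [← d5 y, ← hself]
    exact (c3 N le_rfl y).2
  have hcard : Nat.card (D.subgroupOf N) = Nat.card D := (c2 D hDN).1
  refine ⟨⟨x', hx'N⟩, ?_, ⟨?_, ?_, ?_, ?_, ?_, ?_⟩, ?_, ?_, ?_⟩
  · rw [← d1, ← hself]
    exact (a1 φ hφ.1).1 hφ
  · exact (c4 ⟨x', hx'N⟩).1.2 hD.reg
  · rw [hom]
    exact hD.ne
  · intro d hd
    have h1 : (d : G) ∈ D := Subgroup.mem_subgroupOf.1 hd
    rw [Subgroup.mem_centralizer_iff]
    rintro _ rfl
    have h2 := (Subgroup.mem_inf.1 (hD.le h1)).2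
    rw [Subgroup.mem_centralizer_iff] at h2
    exact Subtype.ext (h2 x' rfl)
  · exact (c2 D hDN).2.2 hD.pg
  · rw [hcard, hcen]
    exact hD.card
  · intro y hy
    rw [hom] at hy
    rw [hcard, hcen]
    exact hD.min y y.2 hy
  · intro c hc d hd
    exact Subtype.ext (rt.com c (Subgroup.mem_subgroupOf.1 hc) d (Subgroup.mem_subgroupOf.1 hd))
  · rw [(c1 D hDN).1]
    exact (a1' θ hθN).1 rt.th
  · rw [d2, ← hself]
    exact (b2 N le_rfl θ φ hθN hφ.1).1 hSB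

end Pool.Agent.FI4I
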