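import Pool.Agent.helper12.FI4.SpecX

/-!
# Project fi4 (MP_baa4d7_al), block EXT, row X2a: twisting with the linear characters of `H / K`
-/

set_option autoImplicit false

namespace Pool.Agent.FI4

open Pool.Agent.helper58.DC Pool.Agent.DI Pool.Agent.GR Pool.Agent.OB Pool.Agent.DR Pool.Agent.FI Pool.Agent.FI3

/-- the product of a linear character and a function -/
noncomputable def X2a_tw {H : Type} [Group H] (l : H →* ℂˣ) (φ : H → ℂ) : H → ℂ := fun x => ((l x : ℂˣ) : ℂ) * φ x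

theorem X2a_cc {H : Type} [Group H] (l : H →* ℂˣ) (φ z : H → ℂ) : cc (X2a_tw l φ) z = cc φ (fun x => ((l x : ℂˣ) : ℂ) * z x) := by
  unfold cc X2a_tw
  rw [map_one, Units.val_one, one_mul]
  congr 1
  exact finsum_congr fun x => by ring

theorem X2a_int {H : Type} [Group H] [Finite H] (l : H →* ℂˣ) (x : H) : IsIntegral ℤ ((l x : ℂˣ) : ℂ) := by
  refine IsIntegral.of_pow (orderOf_pos x) ?_
  have h1 : ((l x : ℂˣ) : ℂ) ^ orderOf x = 1 := by
    rw [← Units.val_pow_eq_pow_val, ← map_pow, pow_orderOf_eq_one, map_one, Units.val_one]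
  rw [h1]
  exact isIntegral_one

theorem X2a_SB {H : Type} [Group H] [Finite H] {M : Ideal (integralClosure ℤ ℂ)} (l : H →* ℂˣ) {φ φ' : H → ℂ}
    (h : SB M ⊤ φ φ') : SB M ⊤ (X2a_tw l φ) (X2a_tw l φ') := by
  intro z hz hi
  rw [X2a_cc, X2a_cc]
  refine h _ ⟨fun y _ x => ?_, fun x hx => absurd (Subgroup.mem_top x) hx⟩ fun x => (X2a_int l x).mul (hi x)
  have h1 : l (y * x * y⁻¹) = l x := by
    rw [map_mul, map_mul, map_inv, mul_comm (l y), mul_inv_cancel_right]
  change ((l (y * x * y⁻¹) : ℂˣ) : ℂ) * z (y * x * y⁻¹) = ((l x : ℂˣ) : ℂ) * z x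
  rw [h1, hz.1 y (Subgroup.mem_top y) x]

theorem X2a_mul {H : Type} [Group H] (l l' : H →* ℂˣ) (φ : H → ℂ) : X2a_tw (l * l') φ = X2a_tw l (X2a_tw l' φ) := by
  funext x
  unfold X2a_tw
  rw [MonoidHom.mul_apply, Units.val_mul, mul_assoc]

theorem X2a_one {H : Type} [Group H] (φ : H → ℂ) : X2a_tw (1 : H →* ℂˣ) φ = φ := by
  funext x
  unfold X2a_tw
  rw [MonoidHom.one_apply, Units.val_one, one_mul]

/-- the stabiliser of the block in the group of the linear characters -/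
noncomputable def X2a_S {H Λ : Type} [Group H] [Finite H] [CommGroup Λ] (M : Ideal (integralClosure ℤ ℂ)) (l : Λ →* (H →* ℂˣ))
    (b : H → ℂ) : Subgroup Λ where
  carrier := {a | SB M ⊤ (X2a_tw (l a) b) b}
  one_mem' := by
    change SB M ⊤ (X2a_tw (l 1) b) b
    rw [map_one, X2a_one]
    exact SB.refl _ _
  mul_mem' := by
    intro a a' ha ha'
    change SB M ⊤ (X2a_tw (l (a * a')) b) b
    rw [map_mul, X2a_mul]
    exact (X2a_SB (l a) ha').trans ha
  inv_mem' := by
    intro a ha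
    change SB M ⊤ (X2a_tw (l a⁻¹) b) b
    have h1 := X2a_SB (l a⁻¹) ha
    rw [← X2a_mul, ← map_mul, inv_mul_cancel, map_one, X2a_one] at h1
    exact h1.symm

theorem X2a (hB5 : B5_stmt) (hB6 : B6_stmt) (hBLE : BLE_stmt) (hSBI : SBI_stmt) : X2a_stmt := by
  classical
  intro p M hS H _ _ K hK hp b hb hIn
  obtain ⟨Λ, _, _, l, hinj, hcard, hl1, hl0⟩ := hB5 H K hK
  have : Fintype Λ := Fintype.ofFinite Λ
  have : Fintype H := Fintype.ofFinite H
  obtain ⟨-, hCF, hIA, -, he1, he0, -, hBB⟩ := hBLE p M hS H ⊤ ⊤ le_rfl b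
  rw [hBB] at hCF hIA he1 he0
  obtain ⟨e, he⟩ : ∃ e : H → ℂ, e = eS ⊤ (Bl M ⊤ b) := ⟨_, rfl⟩
  rw [← he] at hCF hIA he1 he0 hIn
  have hIrr : ∀ a, X2a_tw (l a) b ∈ IrrOn (⊤ : Subgroup H) := fun a => IrrOn_top.2 (hB6 H b hb (l a))
  have hval : ∀ a : Λ, cc (X2a_tw (l a) b) e = if a ∈ X2a_S M l b then 1 else 0 := by
    intro a
    by_cases h : a ∈ X2a_S M l b
    · rw [if_pos h]
      exact he1 _ ⟨hIrr a, h⟩
    · rw [if_neg h]
      exact he0 _ (hIrr a) fun h' => h h'.2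
  -- the sum over the characters
  have hsum : ∑ a : Λ, cc (X2a_tw (l a) b) e = (Nat.card Λ : ℂ) * cc b (rsH K e) := by
    have h1 : ∀ a : Λ, cc (X2a_tw (l a) b) e = (∑ x : H, ((l a x : ℂˣ) : ℂ) * (e x * b x)) / b 1 := by
      intro a
      rw [X2a_cc]
      unfold cc
      rw [finsum_eq_sum_of_fintype]
      congr 1
      exact Finset.sum_congr rfl fun x _ => by ring
    have h2 : cc b (rsH K e) = (∑ x : H, rsH K e x * b x) / b 1 := by
      unfold cc
      rw [finsum_eq_sum_of_fintype]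
    rw [Finset.sum_congr rfl fun a _ => h1 a, ← Finset.sum_div, h2, Finset.sum_comm, ← mul_div_assoc, Finset.mul_sum]
    congr 1
    refine Finset.sum_congr rfl fun x _ => ?_
    rw [← Finset.sum_mul]
    by_cases hx : x ∈ K
    · have h3 : ∑ a : Λ, ((l a x : ℂˣ) : ℂ) = Nat.card Λ := by
        rw [Finset.sum_congr rfl fun a _ => by rw [hl1 a x hx, Units.val_one], Finset.sum_const, Finset.card_univ,
          nsmul_eq_mul, mul_one, Nat.card_eq_fintype_card]
      unfold rsH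
      rw [h3, if_pos hx]
    · have h3 := hl0 x hx
      rw [finsum_eq_sum_of_fintype] at h3
      unfold rsH
      rw [h3, if_neg hx]
      ring
  have hS1 : (Nat.card (X2a_S M l b) : ℂ) = (Nat.card Λ : ℂ) * cc b (rsH K e) := by
    rw [← hsum, Finset.sum_congr rfl fun a _ => hval a, Finset.sum_boole, Nat.card_eq_fintype_card, Fintype.card_subtype]
  have hIn2 : InM M (Nat.card (X2a_S M l b) : ℂ) := by
    rw [hS1]
    exact InM.mul_left hS (IntAt.natCast hS _) hIn
  have hpS : p ∣ Nat.card (X2a_S M l b) := (InM.natCast hS _).1 hIn2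
  have hpΛ : p ∣ Nat.card Λ := hpS.trans (Subgroup.card_subgroup_dvd_card _)
  have hidx : K.index = Nat.card Λ := by
    have h1 := K.card_mul_index
    have h2 : Nat.card K * K.index = Nat.card K * Nat.card Λ := by rw [h1, ← hcard, mul_comm]
    exact Nat.eq_of_mul_eq_mul_left Nat.card_pos h2
  exact hp (hidx ▸ hpΛ)

end Pool.Agent.FI4
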